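import Pool.Agent.Q280.SI.Atrm

/-!
# The rank one abelian Stark conjecture for ATR fields, up to powers
-/

set_option autoImplicit false

namespace Pool.Agent.Results.MP_29cb78_nt.RankOneGivesAllRanks

open NumberField Pool.Agent.Q20.SI Pool.Agent.Q280.SI

/-- **Theorem.** Let `F` be an ATR field (one complex place and at least one real place).
(1) Let `K/F` be an abelian extension unramified outside `𝔣 ≠ 0` (`𝔣 ≠ (1)` if there is only one real
place), for example the narrow ray class field. There are `n ≥ 1` and a unit `u` of `K` with
`n ζ_𝔣'(g, 0) = - log |g u|²` for all `g`, on the unit circle at the places above the real places, if and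
only if for every character `χ` of `G` with a simple zero of `L_𝔣(s, χ)` at `s = 0` the defects of Stark's
equality satisfy `d_σ(χη) d_σ(χ|F₁) d_σ(χ|F₂) = d_σ(χ|F₃)`, for a quadratic character `η` with `χη` totally
even and characters `χ|F_i` which are unramified at all finite places.
(2) Grant the rational form of Stark's conjecture for the cyclic extensions of finite extensions of `F`
which are unramified at all finite places. Then the units in (1) exist for all `K`, `𝔣` if and only if
the rational form of Stark's conjecture, in Rubin's form of any order `r`, holds for all abelian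
extensions of `F`. -/
theorem result (F : Type) [Field F] [NumberField F] (hC : InfinitePlace.nrComplexPlaces F = 1)
    (h1 : 1 ≤ InfinitePlace.nrRealPlaces F) :
    (∀ (K : Type) [Field K] [NumberField K] [Algebra F K] [IsGalois F K] (D : AtrData F K),
      D.Q1 ↔ ∀ χ : (K ≃ₐ[F] K) →* ℂˣ, D.Exact χ → RelE χ) ∧
    (UnramifiedCase F →
      ((∀ (K : Type) [Field K] [NumberField K] [Algebra F K] [IsGalois F K] (D : AtrData F K),
        D.Q1) ↔
      ∀ (K : Type) [Field K] [NumberField K] [Algebra F K] [IsGalois F K] (D : OrderData F K),
        D.Q1)) :=
  ⟨fun _ => fun D => atr_rel D h1 hC, atr_all h1 hC⟩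

end Pool.Agent.Results.MP_29cb78_nt.RankOneGivesAllRanks
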